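import Pool.Agent.Helper42.PW.Goals5
import Pool.Agent.Helper85.PP.DCND
import Pool.Agent.Helper95.PP.DCMP
import Pool.Agent.Helper11.PP.MOM
import Pool.Agent.Helper74.PP.PLFI
import Pool.Agent.Helper15.PP.DTAU

/-!
# Project W (MP_fc6b1e_nt), packet W-W_PRO: a family given by local conditions has positive proportion
-/

set_option autoImplicit false

namespace Pool.Agent.Helper5.PW

open NumberField Polynomial Module IsDedekindDomain
open Pool.Agent.Helper51.RP Pool.Agent.Helper42.RD Pool.Agent.Helper42.PP Pool.Agent.Helper42.PP1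
open Pool.Agent.Helper42.PB Pool.Agent.Helper11.PP Pool.Agent.Helper42.PW

section

variable {p : ℕ} {K K₁ : Type} [Field K] [NumberField K] [Field K₁] [NumberField K₁]
  [Algebra K K₁]

/-- Only finitely many primes are in the support of a class. -/
theorem valC_finite (c : ClP p K₁) : {v : HeightOneSpectrum (𝓞 K) | ValC c v}.Finite := by
  obtain ⟨a, rfl⟩ := QuotientGroup.mk_surjective c
  change {v : HeightOneSpectrum (𝓞 K) | ValC (clp p a) v}.Finite
  have h1 : {W : HeightOneSpectrum (𝓞 K₁) | W.valuation K₁ (a : K₁) ≠ 1}.Finite :=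
    Pool.Agent.Helper99.RS.finite_bad a.ne_zero
  refine (h1.biUnion (t := fun W => {v : HeightOneSpectrum (𝓞 K) | Above W v}) ?_).subset ?_
  · intro W _
    refine Set.Subsingleton.finite ?_
    intro v hv v' hv'
    exact HeightOneSpectrum.ext (hv.symm.trans hv')
  · intro v hv
    obtain ⟨W, hW, hd⟩ := (Pool.Agent.Helper85.PP.valC_iff a v).1 hv
    refine Set.mem_biUnion (x := W) ?_ hW
    intro h
    apply hd
    rw [Pool.Agent.Helper32.RDV.ordv_eq_zero W h]
    exact dvd_zero _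

/-- The support of a product. -/
theorem valC_mul (c c' : ClP p K₁) (v : HeightOneSpectrum (𝓞 K)) (h : ValC (c * c') v) :
    ValC c v ∨ ValC c' v := by
  obtain ⟨a, rfl⟩ := QuotientGroup.mk_surjective c
  obtain ⟨a', rfl⟩ := QuotientGroup.mk_surjective c'
  change ValC (clp p (a * a')) v at h
  change ValC (clp p a) v ∨ ValC (clp p a') v
  obtain ⟨W, hW, hd⟩ := (Pool.Agent.Helper85.PP.valC_iff _ v).1 h
  rw [Pool.Agent.Helper85.PP.valC_iff, Pool.Agent.Helper85.PP.valC_iff]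
  by_contra hcon
  push Not at hcon
  apply hd
  rw [Units.val_mul, Pool.Agent.Helper32.RDV.ordv_mul W a.ne_zero a'.ne_zero]
  exact dvd_add (hcon.1 W hW) (hcon.2 W hW)

theorem condS_eq (S : Finset (HeightOneSpectrum (𝓞 K))) (c : ClP p K₁)
    (hf : {v : HeightOneSpectrum (𝓞 K) | ValC c v ∧ v ∉ S}.Finite) :
    condS K S c = ∏ v ∈ hf.toFinset, Ideal.absNorm v.asIdeal := by
  unfold Pool.Agent.Helper42.PW.condS
  exact finprod_mem_eq_finite_toFinset_prod _ hf

theorem condS_mul_le (S : Finset (HeightOneSpectrum (𝓞 K))) (c c' : ClP p K₁) :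
    condS K S (c * c') ≤ condS K S c * condS K S c' := by
  classical
  have hf : ∀ c : ClP p K₁, {v : HeightOneSpectrum (𝓞 K) | ValC c v ∧ v ∉ S}.Finite :=
    fun c => (valC_finite c).subset fun v hv => hv.1
  rw [condS_eq S _ (hf (c * c')), condS_eq S _ (hf c), condS_eq S _ (hf c'),
    ← Finset.prod_union_inter]
  have h1 : (hf (c * c')).toFinset ⊆ (hf c).toFinset ∪ (hf c').toFinset := by
    intro v hv
    rw [Set.Finite.mem_toFinset] at hv
    rw [Finset.mem_union, Set.Finite.mem_toFinset, Set.Finite.mem_toFinset]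
    rcases valC_mul c c' v hv.1 with h | h
    · exact Or.inl ⟨h, hv.2⟩
    · exact Or.inr ⟨h, hv.2⟩
  calc ∏ v ∈ (hf (c * c')).toFinset, Ideal.absNorm v.asIdeal
      ≤ ∏ v ∈ (hf c).toFinset ∪ (hf c').toFinset, Ideal.absNorm v.asIdeal :=
        Finset.prod_le_prod_of_subset_of_one_le' h1
          fun v _ _ => Pool.Agent.Helper95.PP.norm_pos v
    _ ≤ _ := Nat.le_mul_of_pos_right _
        (Finset.one_le_prod' fun v _ => Pool.Agent.Helper95.PP.norm_pos v)

theorem condS_pos (S : Finset (HeightOneSpectrum (𝓞 K))) (c : ClP p K₁) :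
    1 ≤ condS K S c := by
  rw [condS_eq S c ((valC_finite c).subset fun v hv => hv.1)]
  exact Finset.one_le_prod' fun v _ => Pool.Agent.Helper95.PP.norm_pos v

/-- Products of elements of type `ω`. -/
theorem om_mul (hp : p.Prime) {ε : K₁} (hε : IsPrimitiveRoot ε p) {a d : K₁}
    (hd : d ≠ 0) (h1 : OmType p K ε a) (h2 : OmType p K ε d) : OmType p K ε (a * d) := by
  have h3 : OmType p K ε (1 : K₁) := om_one ⟨d, hd, h2⟩
  have h4 : OmType p K ε (1 / d) := Pool.Agent.Helper95.PP.om_div hp hε hd h3 h2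
  have h5 := Pool.Agent.Helper95.PP.om_div hp hε (one_div_ne_zero hd) h1 h4
  rwa [div_div_eq_mul_div, div_one] at h5

end

theorem w_pro : Pool.Agent.Helper42.PW.W_PRO := by
  intro p hp K K₁ _ _ _ _ _ ε hε S A f hA hex hf hfin
  classical
  have hp' : p.Prime := Fact.out
  obtain ⟨a₁, ha₁, ha₁A⟩ := hex
  obtain ⟨e, he1, heloc, hfe⟩ := hf
  obtain ⟨F₀, hF₀, huq⟩ := Pool.Agent.Helper15.PP.d_tau Pool.Agent.Helper74.PP.p_lfi p K₁
    (up K₁ S) (up_finite S) {a : K₁ˣ | OmType p K ε (a : K₁)}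
  set D : ℕ := ∑ τ ∈ F₀, condS K S (clp p (a₁ / τ)) with hD
  set C : ℝ := (e (clp p a₁) : ℝ) * (D : ℝ) + F₀.card + 1 with hC
  have hC0 : 0 ≤ (e (clp p a₁) : ℝ) * (D : ℝ) := by positivity
  have hC1 : (0 : ℝ) ≤ F₀.card := Nat.cast_nonneg _
  refine ⟨C, by rw [hC]; linarith, fun X => ?_⟩
  set R : Set (ClP p K₁) := {c | c ∈ BSet p K ε ∩ A ∧ (f c : ℝ) ≤ C * X} with hR
  have hRf : R.Finite := (hfin (C * X)).subset fun c hc => ⟨hc.1.1, hc.2⟩
  set R' : Finset (ClP p K₁) := insert 1 hRf.toFinset with hR'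
  have hsub : {c | c ∈ BSet p K ε ∧ (f c : ℝ) ≤ X} ⊆
      ((F₀.biUnion fun τ => R'.image fun c => c * (clp p (a₁ / τ))⁻¹ : Finset (ClP p K₁)) :
        Set (ClP p K₁)) := by
    rintro c ⟨⟨hc1, a, rfl, ha⟩, hcX⟩
    obtain ⟨τ, ⟨hτF, hτ⟩, -⟩ := huq a ha
    have hτo : OmType p K ε (τ : K₁) := hF₀ τ hτF
    have hb : OmType p K ε ((a₁ / τ : K₁ˣ) : K₁) := by
      rw [Units.val_div_eq_div_val]
      exact Pool.Agent.Helper95.PP.om_div hp' hε τ.ne_zero ha₁ hτo
    have hab : OmType p K ε ((a * (a₁ / τ) : K₁ˣ) : K₁) := by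
      rw [Units.val_mul]
      exact om_mul hp' hε (a₁ / τ : K₁ˣ).ne_zero ha hb
    have h1 : a₁ / (a * (a₁ / τ)) = (a / τ)⁻¹ := by
      rw [inv_div, div_eq_div_iff_mul_eq_mul, ← mul_assoc, mul_comm τ a, mul_assoc,
        mul_div_cancel, mul_comm]
    have h2 : LocS p (up K₁ S) (a₁ / (a * (a₁ / τ))) := by
      rw [h1]
      exact (Pool.Agent.Helper15.PP.gZ p (up K₁ S)).inv_mem hτ
    have h3 : clp p (a * (a₁ / τ)) ∈ A := hA _ _ ha₁ hab h2 ha₁A
    have h4 : e (clp p a₁) = e (clp p (a * (a₁ / τ))) := heloc _ _ ha₁ hab h2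
    rw [Finset.coe_biUnion, Set.mem_iUnion₂]
    refine ⟨τ, hτF, ?_⟩
    rw [Finset.mem_coe, Finset.mem_image]
    refine ⟨clp p (a * (a₁ / τ)), ?_, ?_⟩
    · rw [hR', Finset.mem_insert]
      by_cases h5 : clp p (a * (a₁ / τ)) = 1
      · exact Or.inl h5
      · refine Or.inr ((Set.Finite.mem_toFinset _).2 ⟨⟨⟨h5, _, rfl, hab⟩, h3⟩, ?_⟩)
        have h6 : f (clp p (a * (a₁ / τ))) ≤ f (clp p a) * (e (clp p a₁) * D) := by
          rw [hfe, ← h4, hfe]
          have h7 : condS K S (clp p (a * (a₁ / τ))) ≤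
              condS K S (clp p a) * condS K S (clp p (a₁ / τ)) :=
            condS_mul_le S (clp p a) (clp p (a₁ / τ))
          have h8 : condS K S (clp p (a₁ / τ)) ≤ D := by
            rw [hD]
            exact Finset.single_le_sum (f := fun τ => condS K S (clp p (a₁ / τ)))
              (fun _ _ => Nat.zero_le _) hτF
          calc condS K S (clp p (a * (a₁ / τ))) * e (clp p a₁)
              ≤ (condS K S (clp p a) * D) * e (clp p a₁) :=
                Nat.mul_le_mul_right _ (h7.trans (Nat.mul_le_mul_left _ h8))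
            _ ≤ (condS K S (clp p a) * e (clp p a)) * D * e (clp p a₁) := by
                refine Nat.mul_le_mul_right _ (Nat.mul_le_mul_right _ ?_)
                exact Nat.le_mul_of_pos_right _ (he1 _)
            _ = _ := by ring
        have h9 : (f (clp p (a * (a₁ / τ))) : ℝ) ≤
            (f (clp p a) : ℝ) * ((e (clp p a₁) : ℝ) * (D : ℝ)) := by
          exact_mod_cast h6
        have h10 : (0 : ℝ) ≤ f (clp p a) := Nat.cast_nonneg _
        have h11 : (0 : ℝ) ≤ X := h10.trans hcX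
        calc (f (clp p (a * (a₁ / τ))) : ℝ)
            ≤ (f (clp p a) : ℝ) * ((e (clp p a₁) : ℝ) * (D : ℝ)) := h9
          _ ≤ X * ((e (clp p a₁) : ℝ) * (D : ℝ)) := mul_le_mul_of_nonneg_right hcX hC0
          _ ≤ X * C := mul_le_mul_of_nonneg_left (by rw [hC]; linarith) h11
          _ = C * X := mul_comm _ _
    · change clp p a * clp p (a₁ / τ) * (clp p (a₁ / τ))⁻¹ = clp p a
      rw [mul_inv_cancel_right]
  have hcount : {c | c ∈ BSet p K ε ∧ (f c : ℝ) ≤ X}.ncard ≤ F₀.card * (R.ncard + 1) := by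
    calc {c | c ∈ BSet p K ε ∧ (f c : ℝ) ≤ X}.ncard
        ≤ (F₀.biUnion fun τ => R'.image fun c => c * (clp p (a₁ / τ))⁻¹).card := by
          rw [← Set.ncard_coe_finset]
          exact Set.ncard_le_ncard hsub (Finset.finite_toSet _)
      _ ≤ ∑ τ ∈ F₀, (R'.image fun c => c * (clp p (a₁ / τ))⁻¹).card := Finset.card_biUnion_le
      _ ≤ ∑ τ ∈ F₀, (R.ncard + 1) := by
          refine Finset.sum_le_sum fun τ _ => ?_
          refine Finset.card_image_le.trans ?_
          rw [hR']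
          refine (Finset.card_insert_le _ _).trans ?_
          rw [Set.ncard_eq_toFinset_card R hRf]
      _ = F₀.card * (R.ncard + 1) := by rw [Finset.sum_const, smul_eq_mul]
  have hcount' : (({c | c ∈ BSet p K ε ∧ (f c : ℝ) ≤ X}.ncard : ℕ) : ℝ) ≤
      (F₀.card : ℝ) * ((R.ncard : ℝ) + 1) := by exact_mod_cast hcount
  change (({c | c ∈ BSet p K ε ∧ (f c : ℝ) ≤ X}.ncard : ℕ) : ℝ) ≤ C * ((R.ncard : ℝ) + 1)
  refine hcount'.trans (mul_le_mul_of_nonneg_right ?_ (by positivity))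
  rw [hC]
  linarith

end Pool.Agent.Helper5.PW
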