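import Pool.Agent.Helper42.PW.Goals1

/-!
# Project PW (MP_fc6b1e_nt): packet N_CNT (continuity of the norm form)
-/

set_option autoImplicit false

namespace Pool.Agent.Helper5.PW

open NumberField IsDedekindDomain Pool.Agent.Helper42.PW

section gen

variable {F : Type} [Field F] {Γ : Type} [LinearOrderedCommGroupWithZero Γ] (V : Valuation F Γ)

theorem val_prod_sub {ι : Type} [DecidableEq ι] (s : Finset ι) (a a' : ι → F) (b e : Γ)
    (ha : ∀ i ∈ s, V (a i) ≤ b) (ha' : ∀ i ∈ s, V (a' i) ≤ b)
    (hd : ∀ i ∈ s, V (a' i - a i) ≤ e * b) :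
    V (∏ i ∈ s, a' i - ∏ i ∈ s, a i) ≤ e * b ^ s.card ∧ V (∏ i ∈ s, a i) ≤ b ^ s.card := by
  induction s using Finset.induction_on with
  | empty => simp
  | insert i s hi ih =>
    obtain ⟨h1, h2⟩ := ih (fun j hj => ha j (Finset.mem_insert_of_mem hj))
      (fun j hj => ha' j (Finset.mem_insert_of_mem hj))
      (fun j hj => hd j (Finset.mem_insert_of_mem hj))
    have g1 := ha i (Finset.mem_insert_self i s)
    have g2 := ha' i (Finset.mem_insert_self i s)
    have g3 := hd i (Finset.mem_insert_self i s)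
    rw [Finset.prod_insert hi, Finset.prod_insert hi, Finset.card_insert_of_notMem hi]
    constructor
    · have h3 : a' i * ∏ j ∈ s, a' j - a i * ∏ j ∈ s, a j =
          a' i * (∏ j ∈ s, a' j - ∏ j ∈ s, a j) + (a' i - a i) * ∏ j ∈ s, a j := by ring
      rw [h3]
      refine V.map_add_le ?_ ?_
      · rw [map_mul]
        calc V (a' i) * V (∏ j ∈ s, a' j - ∏ j ∈ s, a j) ≤ b * (e * b ^ s.card) :=
              mul_le_mul' g2 h1
          _ = e * b ^ (s.card + 1) := by rw [pow_succ]; ac_rfl
      · rw [map_mul]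
        calc V (a' i - a i) * V (∏ j ∈ s, a j) ≤ (e * b) * b ^ s.card := mul_le_mul' g3 h2
          _ = e * b ^ (s.card + 1) := by rw [pow_succ]; ac_rfl
    · rw [map_mul, pow_succ, mul_comm (b ^ s.card)]
      exact mul_le_mul' g1 h2

theorem val_det_sub (p : ℕ) (A A' : Matrix (Fin p) (Fin p) F) (b e : Γ)
    (ha : ∀ i j, V (A i j) ≤ b) (ha' : ∀ i j, V (A' i j) ≤ b)
    (hd : ∀ i j, V (A' i j - A i j) ≤ e * b) : V (A'.det - A.det) ≤ e * b ^ p := by
  rw [Matrix.det_apply, Matrix.det_apply, ← Finset.sum_sub_distrib]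
  refine V.map_sum_le fun σ _ => ?_
  have h1 := (val_prod_sub V (Finset.univ : Finset (Fin p)) (fun i => A (σ i) i)
    (fun i => A' (σ i) i) b e (fun i _ => ha _ _) (fun i _ => ha' _ _) fun i _ => hd _ _).1
  rw [Finset.card_univ, Fintype.card_fin] at h1
  rw [← smul_sub]
  rcases Int.units_eq_one_or (Equiv.Perm.sign σ) with h | h
  · rw [h, one_smul]
    exact h1
  · rw [h, Units.neg_smul, one_smul, V.map_neg]
    exact h1

end gen

theorem n_cnt : N_CNT := by
  intro p F _ _ W α z γ hγ
  set V := W.valuation F with hV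
  set b₀ : WithZero (Multiplicative ℤ) :=
    max 1 (max (V α) ((Finset.range p).sup fun j => V (z j))) with hb₀
  have hb1 : 1 ≤ b₀ := le_max_left _ _
  have hbα : V α ≤ b₀ := le_trans (le_max_left _ _) (le_max_right _ _)
  have hbz : ∀ j < p, V (z j) ≤ b₀ := fun j hj =>
    le_trans (Finset.le_sup (f := fun j => V (z j)) (Finset.mem_range.2 hj))
      (le_trans (le_max_right _ _) (le_max_right _ _))
  set b := b₀ * b₀ with hb
  have hb₀b : b₀ ≤ b := le_mul_of_one_le_left' hb1
  have hb1' : 1 ≤ b := le_trans hb1 hb₀b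
  have hbp : b ^ p ≠ 0 := pow_ne_zero _ (ne_of_gt (lt_of_lt_of_le zero_lt_one hb1'))
  set N : ℕ := (WithZero.log (b ^ p) - WithZero.log γ).toNat with hN
  set e : WithZero (Multiplicative ℤ) := WithZero.exp (-(N : ℤ)) with he
  have he1 : e ≤ 1 := by
    rw [he, ← WithZero.exp_zero, WithZero.exp_le_exp]
    omega
  have hebp : e * b ^ p ≤ γ := by
    rw [← WithZero.exp_log hbp, ← WithZero.exp_log hγ, he, ← WithZero.exp_add,
      WithZero.exp_le_exp]
    have := Int.self_le_toNat (WithZero.log (b ^ p) - WithZero.log γ)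
    rw [← hN] at this
    omega
  refine ⟨N, fun α' z' hα' hz' => ?_⟩
  rw [← he] at hα' hz'
  have hα'b : V α' ≤ b₀ := by
    have h1 : α' = (α' - α) + α := by ring
    rw [h1]
    exact V.map_add_le (le_trans hα' (le_trans he1 hb1)) hbα
  have hz'b : ∀ j < p, V (z' j) ≤ b₀ := by
    intro j hj
    have h1 : z' j = (z' j - z j) + z j := by ring
    rw [h1]
    exact V.map_add_le (le_trans (hz' j hj) (le_trans he1 hb1)) (hbz j hj)
  refine le_trans (val_det_sub V p _ _ b e ?_ ?_ ?_) hebp
  · intro i j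
    simp only [Matrix.of_apply]
    split_ifs with h
    · exact le_trans (hbz _ (by omega)) hb₀b
    · rw [map_mul]
      exact mul_le_mul' hbα (hbz _ (by omega))
  · intro i j
    simp only [Matrix.of_apply]
    split_ifs with h
    · exact le_trans (hz'b _ (by omega)) hb₀b
    · rw [map_mul]
      exact mul_le_mul' hα'b (hz'b _ (by omega))
  · intro i j
    simp only [Matrix.of_apply]
    split_ifs with h
    · exact le_trans (hz' _ (by omega)) (le_mul_of_one_le_right' hb1')
    · have h1 : α' * z' (p + i - j) - α * z (p + i - j) =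
          α' * (z' (p + i - j) - z (p + i - j)) + (α' - α) * z (p + i - j) := by ring
      rw [h1]
      refine V.map_add_le ?_ ?_
      · rw [map_mul]
        calc V α' * V (z' (p + i - j) - z (p + i - j)) ≤ b₀ * e :=
              mul_le_mul' hα'b (hz' _ (by omega))
          _ = e * b₀ := mul_comm _ _
          _ ≤ e * b := mul_le_mul_right hb₀b e
      · rw [map_mul]
        calc V (α' - α) * V (z (p + i - j)) ≤ e * b₀ := mul_le_mul' hα' (hbz _ (by omega))
          _ ≤ e * b := mul_le_mul_right hb₀b e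

end Pool.Agent.Helper5.PW
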